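import Pool.Agent.Run7.h664.RC

/-!
# Weights for the Hilbert transform on functions of mean zero

For `1 < p < ∞`, a weight `U` satisfies `∫ |Hf|^p U ≤ C ∫ |f|^p U` for all integrable `f` with
`∫ f = 0` if and only if `U ∈ A_p`, or `|x - a|^{-p} U ∈ A_p` for some real `a`, or
`(1 + |x|)^{-p} U ∈ A_p`. (Equivalently, `U = |q|^p W` with `W ∈ A_p` and `q` a complex polynomial of
degree at most one.) The statement is proved for real valued and for complex valued functions.
-/

set_option autoImplicit false

open MeasureTheory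
open scoped NNReal

namespace Pool.Agent.Results.MP_945c9c_an.MeanZeroWeights

open Run7.h664.Weights

/-- Characterisation of the admissible weights. -/
theorem result (𝕜 : Type*) [RCLike 𝕜] (p : ℝ) (hp : 1 < p) (U : ℝ → ℝ≥0) (hU : IsWeight U) :
    Admissible 𝕜 p U ↔
      MemAp p U ∨ (∃ a : ℝ, MemAp p (fun x => U x / ‖x - a‖₊ ^ p)) ∨
        MemAp p (fun x => U x / (1 + ‖x‖₊) ^ p) :=
  Run7.h664.mainK 𝕜 hp hU

end Pool.Agent.Results.MP_945c9c_an.MeanZeroWeights
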